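import Mathlib

/-!
# The difference between the hearing and the boundary independence broadcast numbers

The graphs: a path with centres at the positions `0, 4, 9, 13, 18, 22, ...`, and many legs of length
two at each centre. The value `2` on all centres is a maximal boundary independent broadcast; a
maximal hearing independent broadcast costs more by a factor of at least `25 / 24`.
-/

set_option autoImplicit false

namespace Pool.Agent.Results.MP_511249_co.CaterpillarLegs

open Finset

section defs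

variable {V : Type*} [Fintype V]

/-- The eccentricity of a vertex. -/
noncomputable def ecc (G : SimpleGraph V) (v : V) : ℕ := univ.sup (fun w => G.dist v w)

/-- A broadcast on a connected graph of order at least two: `f v` is at most the eccentricity of
`v` (hence at most the diameter). -/
def IsBroadcast (G : SimpleGraph V) (f : V → ℕ) : Prop := ∀ v, f v ≤ ecc G v

/-- Boundary independence: a vertex `x` which hears `f` from two different broadcasting vertices
satisfies `d(x, w) ≥ f w` for all broadcasting vertices `w`. -/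
def BnIndependent (G : SimpleGraph V) (f : V → ℕ) : Prop :=
  ∀ x u v, u ≠ v → 0 < f u → 0 < f v → G.dist x u ≤ f u → G.dist x v ≤ f v →
    ∀ w, 0 < f w → f w ≤ G.dist x w

/-- Hearing independence: no broadcasting vertex hears `f` from another broadcasting vertex. -/
def HearingIndependent (G : SimpleGraph V) (f : V → ℕ) : Prop :=
  ∀ u v, u ≠ v → 0 < f u → 0 < f v → f v < G.dist u v

/-- A maximal broadcast with the property `P`: no other broadcast with the property `P` is
pointwise at least as large. -/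
def IsMaximal (G : SimpleGraph V) (P : (V → ℕ) → Prop) (f : V → ℕ) : Prop :=
  IsBroadcast G f ∧ P f ∧ ∀ g, IsBroadcast G g → P g → (∀ v, f v ≤ g v) → g = f

/-- `i_bn(G)`: the minimum cost of a maximal boundary independent broadcast. -/
noncomputable def ibn (G : SimpleGraph V) : ℕ :=
  sInf {n | ∃ f, IsMaximal G (BnIndependent G) f ∧ ∑ v, f v = n}

/-- `i_h(G)`: the minimum cost of a maximal hearing independent broadcast. -/
noncomputable def ih (G : SimpleGraph V) : ℕ :=
  sInf {n | ∃ f, IsMaximal G (HearingIndependent G) f ∧ ∑ v, f v = n}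

end defs

/-! ### General lemmas -/

section general

variable {V : Type*}

lemma conn_of (G : SimpleGraph V) (dd : V → V → ℕ)
    (h2 : ∀ u v, dd u v ≠ 0 → ∃ w, G.Adj w v ∧ dd u v = dd u w + 1)
    (h3 : ∀ u v, dd u v = 0 → u = v) : G.Connected ∨ IsEmpty V := by
  rcases isEmpty_or_nonempty V with h | h
  · exact Or.inr h
  · left
    have key : ∀ n : ℕ, ∀ u v, dd u v = n → G.Reachable u v := by
      intro n
      induction n with
      | zero => intro u v h; rw [h3 u v h]
      | succ n ih =>
        intro u v h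
        obtain ⟨w, hw, he⟩ := h2 u v (by omega)
        exact (ih u w (by omega)).trans hw.reachable
    exact ⟨fun u v => key _ u v rfl⟩

/-- A function satisfying the obvious recursion is the distance. -/
lemma dist_eq' (G : SimpleGraph V) (dd : V → V → ℕ) (h0 : ∀ u, dd u u = 0)
    (h1 : ∀ u v w, G.Adj v w → dd u w ≤ dd u v + 1)
    (h2 : ∀ u v, dd u v ≠ 0 → ∃ w, G.Adj w v ∧ dd u v = dd u w + 1)
    (h3 : ∀ u v, dd u v = 0 → u = v) (u v : V) : G.dist u v = dd u v := by
  have hw : ∀ n : ℕ, ∀ u v, dd u v = n → ∃ p : G.Walk u v, p.length = n := by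
    intro n
    induction n with
    | zero =>
      intro u v h
      obtain rfl := h3 u v h
      exact ⟨SimpleGraph.Walk.nil, rfl⟩
    | succ n ih =>
      intro u v h
      obtain ⟨w, hw, he⟩ := h2 u v (by omega)
      obtain ⟨p, hp⟩ := ih u w (by omega)
      exact ⟨p.concat hw, by rw [SimpleGraph.Walk.length_concat, hp]⟩
  obtain ⟨p, hp⟩ := hw _ u v rfl
  apply le_antisymm
  · rw [← hp]; exact SimpleGraph.dist_le p
  · obtain ⟨q, hq⟩ := p.reachable.exists_walk_length_eq_dist
    rw [← hq]
    have hl : ∀ (a b : V) (q : G.Walk a b), ∀ x, dd x b ≤ dd x a + q.length := by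
      intro a b q
      induction q with
      | nil => intro x; simp
      | cons h q ih =>
        intro x
        have h4 := ih x
        have h5 := h1 x _ _ h
        rw [SimpleGraph.Walk.length_cons]
        omega
    have h6 := hl u v q u
    rw [h0] at h6
    omega

variable [Fintype V]

lemma le_ecc (G : SimpleGraph V) (v w : V) : G.dist v w ≤ ecc G v :=
  Finset.le_sup (f := fun w => G.dist v w) (mem_univ w)

lemma exists_maximal (G : SimpleGraph V) :
    ∃ f, IsMaximal G (HearingIndependent G) f := by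
  classical
  set B := ∑ v, ecc G v with hB
  set P : ℕ → Prop := fun n => ∃ f, IsBroadcast G f ∧ HearingIndependent G f ∧ ∑ v, f v = n with hP
  have h0 : P 0 := ⟨fun _ => 0, fun _ => Nat.zero_le _, fun _ _ _ h => absurd h (lt_irrefl 0), by simp⟩
  have h1 := Nat.findGreatest_spec (P := P) (Nat.zero_le B) h0
  obtain ⟨f, hf1, hf2, hf3⟩ := h1
  refine ⟨f, hf1, hf2, fun g hg1 hg2 hfg => ?_⟩
  have h2 : ∑ v, g v ≤ B := Finset.sum_le_sum fun v _ => hg1 v
  have h3 : ∑ v, g v ≤ ∑ v, f v := by
    rw [hf3]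
    exact Nat.le_findGreatest h2 ⟨g, hg1, hg2, rfl⟩
  by_contra hne
  obtain ⟨v, hv⟩ := Function.ne_iff.1 hne
  have h4 : ∑ v, f v < ∑ v, g v :=
    Finset.sum_lt_sum (fun v _ => hfg v) ⟨v, mem_univ v, lt_of_le_of_ne (hfg v) (Ne.symm hv)⟩
  omega

/-- What maximality says at a vertex. -/
lemma maximal_at (G : SimpleGraph V) (f : V → ℕ) (hf : IsMaximal G (HearingIndependent G) f)
    (v : V) (hv : f v + 1 ≤ ecc G v) :
    ∃ b, b ≠ v ∧ 0 < f b ∧ (G.dist v b ≤ f v + 1 ∨ (f v = 0 ∧ G.dist v b ≤ f b)) := by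
  classical
  obtain ⟨h1, h2, h3⟩ := hf
  by_contra hcon
  push Not at hcon
  have hg := h3 (Function.update f v (f v + 1)) (by
    intro w
    by_cases hw : w = v
    · subst hw; simpa using hv
    · rw [Function.update_of_ne hw]; exact h1 w) (by
    intro x y hxy hx hy
    by_cases hxv : x = v
    · subst hxv
      have hyx : y ≠ x := Ne.symm hxy
      rw [Function.update_of_ne hyx] at hy ⊢
      obtain ⟨-, h5⟩ := hcon y hyx hy
      rcases Nat.eq_zero_or_pos (f x) with h6 | h6
      · exact h5 h6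
      · exact h2 x y hxy h6 hy
    · rw [Function.update_of_ne hxv] at hx
      by_cases hyv : y = v
      · subst hyv
        rw [Function.update_self]
        have h5 := (hcon x hxv hx).1
        rw [SimpleGraph.dist_comm]
        omega
      · rw [Function.update_of_ne hyv] at hy ⊢
        exact h2 x y hxy hx hy) (by
    intro w
    by_cases hw : w = v
    · subst hw; simp
    · rw [Function.update_of_ne hw])
  have := congrFun hg v
  rw [Function.update_self] at this
  omega

end general

/-! ### The graphs -/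

/-- the absolute difference -/
def ad (a b : ℕ) : ℕ := (a - b) + (b - a)

/-- the position of the centre `t` -/
def p (t : ℕ) : ℕ := 9 * t / 2

/-- the vertices: the path, and for each centre `t` and each `i` a leg of two vertices -/
abbrev W (κ m : ℕ) : Type := Fin (9 * κ + 5) ⊕ (Fin (2 * κ + 2) × Fin m × Bool)

variable {κ m : ℕ}

def pos : W κ m → ℕ
  | Sum.inl j => j
  | Sum.inr (t, _, _) => p t

def ht : W κ m → ℕ
  | Sum.inl _ => 0
  | Sum.inr (_, _, b) => if b then 2 else 1

def leg : W κ m → Option (Fin (2 * κ + 2) × Fin m)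
  | Sum.inl _ => none
  | Sum.inr (t, i, _) => some (t, i)

/-- the distance -/
def dd (u v : W κ m) : ℕ :=
  ad (pos u) (pos v) + if leg u = leg v then ad (ht u) (ht v) else ht u + ht v

lemma dd_self (u : W κ m) : dd u u = 0 := by simp [dd, ad]

lemma dd_comm (u v : W κ m) : dd u v = dd v u := by
  unfold dd ad
  by_cases h : leg u = leg v
  · rw [if_pos h, if_pos h.symm]; omega
  · rw [if_neg h, if_neg (Ne.symm h)]; omega

lemma dd_tri (u v w : W κ m) : dd u w ≤ dd u v + dd v w := by
  unfold dd ad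
  by_cases h1 : leg u = leg v
  · by_cases h2 : leg v = leg w
    · rw [if_pos h1, if_pos h2, if_pos (h1.trans h2)]; omega
    · have h3 : leg u ≠ leg w := by rw [h1]; exact h2
      rw [if_pos h1, if_neg h2, if_neg h3]; omega
  · by_cases h2 : leg v = leg w
    · have h3 : leg u ≠ leg w := by rw [← h2]; exact h1
      rw [if_neg h1, if_pos h2, if_neg h3]; omega
    · rw [if_neg h1, if_neg h2]
      split_ifs <;> omega

lemma ht_le (u : W κ m) : ht u ≤ 2 := by
  rcases u with j | ⟨t, i, b⟩
  · simp [ht]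
  · cases b <;> simp [ht]

lemma leg_none_iff (u : W κ m) : leg u = none ↔ ht u = 0 := by
  rcases u with j | ⟨t, i, b⟩
  · simp [ht, leg]
  · cases b <;> simp [ht, leg]

lemma ext_of (u v : W κ m) (h1 : pos u = pos v) (h2 : leg u = leg v) (h3 : ht u = ht v) : u = v := by
  rcases u with j | ⟨t, i, b⟩ <;> rcases v with j' | ⟨t', i', b'⟩
  · simp only [pos] at h1
    rw [Fin.ext h1]
  · simp [leg] at h2
  · simp [leg] at h2
  · simp only [leg, Option.some.injEq, Prod.mk.injEq] at h2
    obtain ⟨rfl, rfl⟩ := h2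
    cases b <;> cases b' <;> simp [ht] at h3 ⊢

lemma dd_zero (u v : W κ m) (h : dd u v = 0) : u = v := by
  unfold dd ad at h
  by_cases h1 : leg u = leg v
  · rw [if_pos h1] at h
    exact ext_of u v (by omega) h1 (by omega)
  · rw [if_neg h1] at h
    have h2 := (leg_none_iff u).2 (by omega)
    have h3 := (leg_none_iff v).2 (by omega)
    exact absurd (h2.trans h3.symm) h1

/-- the graph -/
def G (κ m : ℕ) : SimpleGraph (W κ m) where
  Adj u v := dd u v = 1
  symm := ⟨fun u v h => by rw [dd_comm]; exact h⟩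
  loopless := ⟨fun u h => by rw [dd_self] at h; exact absurd h (by norm_num)⟩

lemma p_lt (t : Fin (2 * κ + 2)) : p t < 9 * κ + 5 := by
  have := t.2
  unfold p
  omega

/-- the centre `t` -/
def c (t : Fin (2 * κ + 2)) : W κ m := Sum.inl ⟨p t, p_lt t⟩

lemma dd_inl (v : W κ m) (j : Fin (9 * κ + 5)) : dd v (Sum.inl j) = ad (pos v) j + ht v := by
  have e1 : pos (Sum.inl j : W κ m) = j := rfl
  have e2 : ht (Sum.inl j : W κ m) = 0 := rfl
  have e3 : leg (Sum.inl j : W κ m) = none := rfl
  unfold dd
  rw [e1, e2, e3]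
  by_cases h : leg v = none
  · rw [if_pos h, (leg_none_iff v).1 h]; simp [ad]
  · rw [if_neg h]; omega

lemma dd_c (v : W κ m) (t : Fin (2 * κ + 2)) : dd v (c t) = ad (pos v) (p t) + ht v := dd_inl v _

lemma p_even (q : ℕ) : p (2 * q) = 9 * q := by unfold p; omega

lemma p_odd (q : ℕ) : p (2 * q + 1) = 9 * q + 4 := by unfold p; omega

lemma gap {t t' : ℕ} (h : t < t') : p t + 4 ≤ p t' := by
  rcases Nat.even_or_odd' t with ⟨q, rfl | rfl⟩ <;> rcases Nat.even_or_odd' t' with ⟨r, rfl | rfl⟩ <;>
    simp only [p_even, p_odd] <;> omega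

lemma gap4 {t t' : ℕ} (h : t < t') (h4 : p t' ≤ p t + 4) : p t % 9 = 0 := by
  rcases Nat.even_or_odd' t with ⟨q, rfl | rfl⟩ <;> rcases Nat.even_or_odd' t' with ⟨r, rfl | rfl⟩ <;>
    simp only [p_even, p_odd] at h4 ⊢ <;> omega

lemma gap_ne {t t' : ℕ} (h : t ≠ t') : 4 ≤ ad (p t) (p t') := by
  unfold ad
  rcases Nat.lt_or_gt_of_ne h with h1 | h1
  · have := gap h1; omega
  · have := gap h1; omega

lemma dd_step (u v : W κ m) (h : dd u v ≠ 0) : ∃ w, (G κ m).Adj w v ∧ dd u v = dd u w + 1 := by
  rcases v with j | ⟨t, i, b⟩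
  · -- on the path
    rcases lt_trichotomy (pos u) (j : ℕ) with h1 | h1 | h1
    · refine ⟨Sum.inl ⟨j - 1, by omega⟩, ?_, ?_⟩
      · show dd _ _ = 1
        rw [dd_inl]
        simp only [pos, ht, ad]
        omega
      · rw [dd_inl, dd_inl]
        simp only [ad]
        omega
    · -- `u` is on a leg of this centre
      rcases u with j' | ⟨t', i', b'⟩
      · exfalso
        apply h
        simp only [pos] at h1
        rw [Fin.ext h1, dd_self]
      · refine ⟨Sum.inr (t', i', false), ?_, ?_⟩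
        · show dd _ _ = 1
          simp only [pos] at h1
          simp [dd, pos, ht, leg, ad]
          omega
        · simp only [pos] at h1
          cases b'
          · simp [dd, pos, ht, leg, ad]; omega
          · simp [dd, pos, ht, leg, ad]; omega
    · have hu : pos u < 9 * κ + 5 := by
        rcases u with j' | ⟨t', i', b'⟩
        · exact j'.2
        · exact p_lt t'
      refine ⟨Sum.inl ⟨j + 1, by omega⟩, ?_, ?_⟩
      · show dd _ _ = 1
        rw [dd_inl]
        simp only [pos, ht, ad]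
        omega
      · rw [dd_inl, dd_inl]
        simp only [ad]
        omega
  · cases b
    · -- height one
      by_cases h1 : leg u = some (t, i)
      · refine ⟨Sum.inr (t, i, true), ?_, ?_⟩
        · show dd _ _ = 1
          simp [dd, pos, ht, leg, ad]
        · rcases u with j' | ⟨t', i', b'⟩
          · simp [leg] at h1
          · simp only [leg, Option.some.injEq, Prod.mk.injEq] at h1
            obtain ⟨rfl, rfl⟩ := h1
            cases b'
            · exact absurd (dd_self _) h
            · simp [dd, pos, ht, leg, ad]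
      · refine ⟨c t, ?_, ?_⟩
        · show dd _ _ = 1
          rw [dd_comm, dd_c]
          simp [pos, ht, ad]
        · rw [dd_c]
          unfold dd
          rw [if_neg (by simpa [leg] using h1)]
          simp only [pos, ht]
          simp
          omega
    · -- height two
      refine ⟨Sum.inr (t, i, false), ?_, ?_⟩
      · show dd _ _ = 1
        simp [dd, pos, ht, leg, ad]
      · by_cases h1 : leg u = some (t, i)
        · rcases u with j' | ⟨t', i', b'⟩
          · simp [leg] at h1
          · simp only [leg, Option.some.injEq, Prod.mk.injEq] at h1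
            obtain ⟨rfl, rfl⟩ := h1
            cases b'
            · simp [dd, pos, ht, leg, ad]
            · exact absurd (dd_self _) h
        · unfold dd
          rw [if_neg (by simpa [leg] using h1), if_neg (by simpa [leg] using h1)]
          simp only [pos, ht]
          simp
          omega

lemma dist_G (u v : W κ m) : (G κ m).dist u v = dd u v := by
  apply dist_eq' (G κ m) dd dd_self _ dd_step dd_zero
  intro u v w h
  have h1 := dd_tri u v w
  have h2 : dd v w = 1 := h
  omega

lemma conn_G : (G κ m).Connected := by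
  rcases conn_of (G κ m) dd dd_step dd_zero with h | h
  · exact h
  · exact (h.false (Sum.inl ⟨0, by omega⟩)).elim

/-- every vertex is near a centre -/
lemma near (v : W κ m) : ∃ t : Fin (2 * κ + 2), dd v (c t) ≤ 2 := by
  rcases v with j | ⟨t, i, b⟩
  · have hj := j.2
    by_cases h1 : (j : ℕ) % 9 ≤ 2
    · refine ⟨⟨2 * (j / 9), by omega⟩, ?_⟩
      rw [dd_c]
      simp only [pos, ht, ad, p]
      omega
    · by_cases h2 : (j : ℕ) % 9 ≤ 6
      · refine ⟨⟨2 * (j / 9) + 1, by omega⟩, ?_⟩
        rw [dd_c]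
        simp only [pos, ht, ad, p]
        omega
      · refine ⟨⟨2 * (j / 9) + 2, by omega⟩, ?_⟩
        rw [dd_c]
        simp only [pos, ht, ad, p]
        omega
  · refine ⟨t, ?_⟩
    rw [dd_c]
    have := ht_le (Sum.inr (t, i, b) : W κ m)
    simp only [pos, ad]
    omega

lemma ecc_ge (v : W κ m) (h : 2 ≤ κ) : 6 ≤ ecc (G κ m) v := by
  by_cases h1 : pos v ≤ 10
  · have h2 := le_ecc (G κ m) v (Sum.inl ⟨9 * κ + 4, by omega⟩)
    rw [dist_G] at h2
    refine le_trans ?_ h2
    unfold dd
    have : pos (Sum.inl ⟨9 * κ + 4, by omega⟩ : W κ m) = 9 * κ + 4 := rfl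
    rw [this]
    unfold ad
    omega
  · have h2 := le_ecc (G κ m) v (Sum.inl ⟨0, by omega⟩)
    rw [dist_G] at h2
    refine le_trans ?_ h2
    unfold dd
    have : pos (Sum.inl ⟨0, by omega⟩ : W κ m) = 0 := rfl
    rw [this]
    unfold ad
    omega

/-! ### The boundary independent broadcast -/

/-- the value two on all centres -/
noncomputable def f₀ : W κ m → ℕ := by
  classical
  exact fun v => if ∃ t, v = c t then 2 else 0

lemma f₀_c (t : Fin (2 * κ + 2)) : f₀ (c t : W κ m) = 2 := by
  unfold f₀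
  rw [if_pos ⟨t, rfl⟩]

lemma f₀_pos (v : W κ m) (h : 0 < f₀ v) : ∃ t, v = c t := by
  by_contra hn
  unfold f₀ at h
  rw [if_neg hn] at h
  omega

lemma f₀_sum : ∑ v : W κ m, f₀ v ≤ 4 * (κ + 1) := by
  classical
  unfold f₀
  rw [← Finset.sum_filter, Finset.sum_const, smul_eq_mul]
  have h1 : (univ.filter (fun v : W κ m => ∃ t, v = c t)).card ≤ 2 * κ + 2 := by
    have h2 : univ.filter (fun v : W κ m => ∃ t, v = c t) ⊆ univ.image (fun t : Fin (2 * κ + 2) => c t) := by
      intro v hv
      rw [mem_filter] at hv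
      obtain ⟨-, t, rfl⟩ := hv
      exact mem_image_of_mem _ (mem_univ t)
    refine (card_le_card h2).trans (card_image_le.trans ?_)
    simp
  omega

lemma dd_cc (t t' : Fin (2 * κ + 2)) : dd (c t : W κ m) (c t') = ad (p t) (p t') := by
  rw [dd_c]; rfl

lemma f₀_bn : BnIndependent (G κ m) (f₀ : W κ m → ℕ) := by
  intro x u v huv hu hv hxu hxv w hw
  obtain ⟨t, rfl⟩ := f₀_pos u hu
  obtain ⟨t', rfl⟩ := f₀_pos v hv
  obtain ⟨s, rfl⟩ := f₀_pos w hw
  rw [f₀_c] at *
  have ht : (t : ℕ) ≠ t' := by
    intro h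
    exact huv (by rw [Fin.ext h])
  rw [dist_G, dd_c] at *
  have h1 := gap_ne ht
  by_cases h2 : (s : ℕ) = t
  · rw [h2]
    unfold ad at *
    omega
  · have h3 := gap_ne h2
    unfold ad at *
    omega

lemma f₀_max (hκ : 2 ≤ κ) : IsMaximal (G κ m) (BnIndependent (G κ m)) f₀ := by
  refine ⟨fun v => ?_, f₀_bn, fun g hg1 hg2 hfg => ?_⟩
  · have := ecc_ge v hκ
    unfold f₀
    split_ifs <;> omega
  · -- `g` vanishes off the centres
    have h1 : ∀ v, 0 < g v → ∃ t, v = c t := by
      intro v hv
      by_contra hn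
      obtain ⟨t, ht⟩ := near v
      have h2 := hfg (c t)
      rw [f₀_c] at h2
      have h3 := hg2 v v (c t) (fun h => hn ⟨t, h⟩) hv (by omega) (by simp) (by rw [dist_G]; omega) v hv
      rw [SimpleGraph.dist_self] at h3
      omega
    funext v
    by_cases hv : ∃ t, v = c t
    · obtain ⟨t, rfl⟩ := hv
      rw [f₀_c]
      have h2 := hfg (c t)
      rw [f₀_c] at h2
      by_contra hne
      have ht2 := t.2
      -- the partner of `t`
      obtain ⟨t', ht'⟩ : ∃ t' : Fin (2 * κ + 2), (t' : ℕ) = 2 * (t / 2) + (1 - t % 2) :=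
        ⟨⟨2 * (t / 2) + (1 - t % 2), by omega⟩, rfl⟩
      have h3 := hfg (c t')
      rw [f₀_c] at h3
      have hx : 9 * ((t : ℕ) / 2) + 2 < 9 * κ + 5 := by omega
      have hpx : pos (Sum.inl ⟨9 * ((t : ℕ) / 2) + 2, hx⟩ : W κ m) = 9 * ((t : ℕ) / 2) + 2 := rfl
      have hhx : ht (Sum.inl ⟨9 * ((t : ℕ) / 2) + 2, hx⟩ : W κ m) = 0 := rfl
      have d1 : dd (Sum.inl ⟨9 * ((t : ℕ) / 2) + 2, hx⟩ : W κ m) (c t) = 2 := by
        rw [dd_c, hpx, hhx]
        unfold ad p
        omega
      have d2 : dd (Sum.inl ⟨9 * ((t : ℕ) / 2) + 2, hx⟩ : W κ m) (c t') = 2 := by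
        rw [dd_c, hpx, hhx, ht']
        unfold ad p
        omega
      have h4 := hg2 (Sum.inl ⟨9 * ((t : ℕ) / 2) + 2, hx⟩) (c t) (c t') (by
        intro h
        have h5 := congrArg pos h
        have e1 : pos (c t : W κ m) = p t := rfl
        have e2 : pos (c t' : W κ m) = p t' := rfl
        rw [e1, e2] at h5
        unfold p at h5
        omega) (by omega) (by omega) (by rw [dist_G, d1]; omega) (by rw [dist_G, d2]; omega) (c t) (by omega)
      rw [dist_G, d1] at h4
      omega
    · have h2 : g v = 0 := by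
        by_contra h
        exact hv (h1 v (by omega))
      rw [h2]
      unfold f₀
      rw [if_neg hv]

/-! ### The lower bound for hearing independent broadcasts -/

lemma free_leg (f : W κ m → ℕ) (hcost : ∑ v, f v < m) (t : Fin (2 * κ + 2)) :
    ∃ i : Fin m, f (Sum.inr (t, i, false)) = 0 ∧ f (Sum.inr (t, i, true)) = 0 := by
  by_contra hcon
  push Not at hcon
  have h1 : ∀ i : Fin m, 1 ≤ ∑ b : Bool, f (Sum.inr (t, i, b)) := by
    intro i
    have := hcon i
    rw [Fintype.sum_bool]
    by_contra h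
    push Not at h
    exact this (by omega) (by omega)
  have h2 : m ≤ ∑ i : Fin m, ∑ b : Bool, f (Sum.inr (t, i, b)) := by
    calc m = ∑ i : Fin m, 1 := by simp
      _ ≤ _ := Finset.sum_le_sum fun i _ => h1 i
  have h3 : ∑ v, f v = ∑ j, f (Sum.inl j) + ∑ t, ∑ i, ∑ b : Bool, f (Sum.inr (t, i, b)) := by
    rw [Fintype.sum_sum_type]
    congr 1
    rw [Fintype.sum_prod_type]
    apply Finset.sum_congr rfl
    intro t _
    rw [Fintype.sum_prod_type]
  have h4 : ∑ i : Fin m, ∑ b : Bool, f (Sum.inr (t, i, b)) ≤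
      ∑ t, ∑ i, ∑ b : Bool, f (Sum.inr (t, i, b)) :=
    Finset.single_le_sum (f := fun t => ∑ i : Fin m, ∑ b : Bool, f (Sum.inr (t, i, b)))
      (fun _ _ => Nat.zero_le _) (mem_univ t)
  omega

/-- every centre is covered with a margin of two -/
lemma cover (hκ : 2 ≤ κ) (f : W κ m → ℕ) (hf : IsMaximal (G κ m) (HearingIndependent (G κ m)) f)
    (hcost : ∑ v, f v < m) (t : Fin (2 * κ + 2)) : ∃ b, 0 < f b ∧ dd b (c t) + 2 ≤ f b := by
  obtain ⟨i, hi1, hi2⟩ := free_leg f hcost t
  obtain ⟨b, hb1, hb2, hb3⟩ := maximal_at (G κ m) f hf (Sum.inr (t, i, true)) (by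
    have := ecc_ge (Sum.inr (t, i, true) : W κ m) hκ
    omega)
  have hleg : leg b ≠ some (t, i) := by
    intro h
    rcases b with j | ⟨t', i', b'⟩
    · simp [leg] at h
    · simp only [leg, Option.some.injEq, Prod.mk.injEq] at h
      obtain ⟨rfl, rfl⟩ := h
      cases b'
      · omega
      · omega
  have hd : dd (Sum.inr (t, i, true)) b = dd b (c t) + 2 := by
    rw [dd_comm, dd_c]
    unfold dd
    rw [if_neg (by simpa [leg] using hleg)]
    simp only [pos, ht]
    simp
    omega
  refine ⟨b, hb2, ?_⟩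
  rw [dist_G, hd, hi2] at hb3
  omega

/-- a broadcasting vertex near the centre `t` covers it -/
lemma self_cover (hκ : 2 ≤ κ) (f : W κ m → ℕ) (hf : IsMaximal (G κ m) (HearingIndependent (G κ m)) f)
    (hcost : ∑ v, f v < m) (b : W κ m) (hb : 0 < f b) :
    ∃ t : Fin (2 * κ + 2), dd b (c t) + 2 ≤ f b := by
  obtain ⟨t, ht⟩ := near b
  obtain ⟨v, hv1, hv2⟩ := cover hκ f hf hcost t
  by_cases h : b = v
  · subst h; exact ⟨t, hv2⟩
  · exfalso
    have h1 := hf.2.1 b v h hb hv1
    rw [dist_G] at h1
    have h2 := dd_tri b (c t) v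
    rw [dd_comm (c t) v] at h2
    omega

lemma three_le (hκ : 2 ≤ κ) (f : W κ m → ℕ) (hf : IsMaximal (G κ m) (HearingIndependent (G κ m)) f)
    (hcost : ∑ v, f v < m) (b : W κ m) (hb : 0 < f b) : 3 ≤ f b := by
  have two : ∀ b : W κ m, 0 < f b → f b ≤ 2 → ∃ t : Fin (2 * κ + 2), b = c t ∧ f b = 2 := by
    intro b hb hb2
    obtain ⟨t, ht⟩ := self_cover hκ f hf hcost b hb
    exact ⟨t, dd_zero _ _ (by omega), by omega⟩
  by_contra hlt
  obtain ⟨t, rfl, h2⟩ := two b hb (by omega)
  obtain ⟨b', hb1, hb2, hb3⟩ := maximal_at (G κ m) f hf (c t) (by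
    have := ecc_ge (c t : W κ m) hκ
    omega)
  have hd : (G κ m).dist (c t) b' ≤ 3 := by
    rcases hb3 with h | h <;> omega
  have h4 := hf.2.1 (c t) b' (Ne.symm hb1) hb hb2
  obtain ⟨t', rfl, -⟩ := two b' hb2 (by omega)
  rw [dist_G, dd_cc] at hd
  have hne : (t : ℕ) ≠ t' := by
    intro h
    exact hb1 (by rw [Fin.ext h])
  unfold ad p at hd
  omega

/-- the centres covered by `b` -/
def C (f : W κ m → ℕ) (b : W κ m) : Finset (Fin (2 * κ + 2)) :=
  univ.filter (fun t => dd b (c t) + 2 ≤ f b)

lemma card_C (f : W κ m → ℕ) (b : W κ m) : 9 * (C f b).card ≤ 4 * f b + 2 := by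
  rcases (C f b).eq_empty_or_nonempty with h | h
  · rw [h]; simp
  · set s := (C f b).min' h with hs
    set l := (C f b).max' h with hl
    have h1 : s ∈ C f b := Finset.min'_mem _ _
    have h2 : l ∈ C f b := Finset.max'_mem _ _
    have h3 : (C f b).card ≤ l - s + 1 := by
      have h4 : (C f b).card ≤ (Finset.Icc (s : ℕ) l).card := by
        apply Finset.card_le_card_of_injOn (fun t : Fin (2 * κ + 2) => (t : ℕ))
        · intro t ht
          rw [mem_coe] at ht
          have h5 := Finset.min'_le _ _ ht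
          have h6 := Finset.le_max' _ _ ht
          rw [mem_coe, Finset.mem_Icc]
          exact ⟨h5, h6⟩
        · intro t _ t' _ h
          exact Fin.ext h
      rw [Nat.card_Icc] at h4
      omega
    have hsl : (s : ℕ) ≤ l := Finset.min'_le _ _ h2
    simp only [C, mem_filter, mem_univ, true_and] at h1 h2
    rw [dd_c] at h1 h2
    unfold ad p at h1 h2
    omega

/-- the bad vertices -/
def Bad (f : W κ m → ℕ) (b : W κ m) : Prop := f b = 4 ∧ 2 ≤ (C f b).card

lemma bad_pos (f : W κ m → ℕ) (b : W κ m) (h : Bad f b) : ht b = 0 ∧ pos b % 9 = 2 := by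
  obtain ⟨h1, h2⟩ := h
  obtain ⟨t, ht1, t', ht2, hne⟩ := Finset.one_lt_card.1 (by omega : 1 < (C f b).card)
  simp only [C, mem_filter, mem_univ, true_and] at ht1 ht2
  rw [dd_c, h1] at ht1 ht2
  have hne' : (t : ℕ) ≠ t' := fun h => hne (Fin.ext h)
  unfold ad at ht1 ht2
  rcases Nat.lt_or_gt_of_ne hne' with h3 | h3
  · have h4 := gap h3
    have h5 := gap4 h3 (by omega)
    omega
  · have h4 := gap h3
    have h5 := gap4 h3 (by omega)
    omega

lemma bad_partner (hκ : 2 ≤ κ) (f : W κ m → ℕ) (hf : IsMaximal (G κ m) (HearingIndependent (G κ m)) f)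
    (v : W κ m) (hv : Bad f v) : ∃ b, 0 < f b ∧ ¬ Bad f b ∧ dd v b = 5 := by
  have hv4 := hv.1
  obtain ⟨b, hb1, hb2, hb3⟩ := maximal_at (G κ m) f hf v (by
    have := ecc_ge v hκ
    omega)
  have h1 := hf.2.1 b v hb1 hb2 (by omega)
  rw [SimpleGraph.dist_comm] at h1
  rw [dist_G] at h1 hb3
  have hd : dd v b = 5 := by
    rcases hb3 with h | h <;> omega
  refine ⟨b, hb2, fun hbad => ?_, hd⟩
  obtain ⟨e1, e2⟩ := bad_pos f v hv
  obtain ⟨e3, e4⟩ := bad_pos f b hbad
  unfold dd ad at hd
  rw [(leg_none_iff v).2 e1, (leg_none_iff b).2 e3, if_pos rfl] at hd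
  omega

lemma few_partners (f : W κ m → ℕ) (b : W κ m) (S : Finset (W κ m)) (hS : ∀ v ∈ S, Bad f v ∧ dd v b = 5) :
    S.card ≤ 2 := by
  classical
  have h1 : S.card ≤ ({pos b + (5 - ht b), pos b - (5 - ht b)} : Finset ℕ).card := by
    apply Finset.card_le_card_of_injOn pos
    · intro v hv
      obtain ⟨h2, h3⟩ := hS v hv
      obtain ⟨e1, e2⟩ := bad_pos f v h2
      have hb := ht_le b
      unfold dd ad at h3
      rw [mem_coe, mem_insert, mem_singleton]
      rw [e1, (leg_none_iff v).2 e1] at h3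
      by_cases h : leg b = none
      · have h4 := (leg_none_iff b).1 h
        rw [if_pos h.symm] at h3
        omega
      · rw [if_neg (Ne.symm h)] at h3
        omega
    · intro v hv w hw h
      have h2 := (bad_pos f v (hS v hv).1).1
      have h3 := (bad_pos f w (hS w hw).1).1
      exact ext_of v w h (((leg_none_iff v).2 h2).trans ((leg_none_iff w).2 h3).symm) (h2.trans h3.symm)
  exact h1.trans Finset.card_le_two

theorem lower (hκ : 2 ≤ κ) (f : W κ m → ℕ) (hf : IsMaximal (G κ m) (HearingIndependent (G κ m)) f)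
    (hcost : ∑ v, f v < m) : 50 * (κ + 1) ≤ 12 * ∑ v, f v := by
  classical
  set B := univ.filter (fun b : W κ m => 0 < f b) with hB
  set Bd := B.filter (fun b => Bad f b) with hBd
  set Nb := B.filter (fun b => ¬ Bad f b) with hNb
  -- all centres are covered
  have h1 : 2 * κ + 2 ≤ ∑ b ∈ B, (C f b).card := by
    have h2 : (univ : Finset (Fin (2 * κ + 2))) ⊆ B.biUnion (C f) := by
      intro t _
      obtain ⟨b, hb1, hb2⟩ := cover hκ f hf hcost t
      rw [mem_biUnion]
      exact ⟨b, by rw [hB, mem_filter]; exact ⟨mem_univ _, hb1⟩, by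
        unfold C; rw [mem_filter]; exact ⟨mem_univ _, hb2⟩⟩
    have h3 := (card_le_card h2).trans card_biUnion_le
    simpa using h3
  -- the number of bad vertices
  have h2 : Bd.card ≤ Nb.card * 2 := by
    have h3 : Bd ⊆ Nb.biUnion (fun b => Bd.filter (fun v => dd v b = 5)) := by
      intro v hv
      have hv' := (mem_filter.1 hv).2
      obtain ⟨b, hb1, hb2, hb3⟩ := bad_partner hκ f hf v hv'
      rw [mem_biUnion]
      refine ⟨b, ?_, ?_⟩
      · rw [hNb, mem_filter, hB, mem_filter]
        exact ⟨⟨mem_univ _, hb1⟩, hb2⟩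
      · rw [mem_filter]; exact ⟨hv, hb3⟩
    refine (card_le_card h3).trans (card_biUnion_le_card_mul _ _ _ ?_)
    intro b _
    apply few_partners f b
    intro v hv
    rw [mem_filter] at hv
    exact ⟨(mem_filter.1 hv.1).2, hv.2⟩
  have hsum : ∑ v, f v = ∑ b ∈ Bd, f b + ∑ b ∈ Nb, f b := by
    rw [hBd, hNb, Finset.sum_filter_add_sum_filter_not]
    rw [hB, Finset.sum_filter]
    apply Finset.sum_congr rfl
    intro v _
    split_ifs with h
    · rfl
    · omega
  have hsumC : ∑ b ∈ B, (C f b).card = ∑ b ∈ Bd, (C f b).card + ∑ b ∈ Nb, (C f b).card := by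
    rw [hBd, hNb, Finset.sum_filter_add_sum_filter_not]
  have h3 : ∑ b ∈ Bd, (25 * (C f b).card) ≤ ∑ b ∈ Bd, (12 * f b + 2) := by
    apply Finset.sum_le_sum
    intro b hb
    have h4 := (mem_filter.1 hb).2.1
    have h5 := card_C f b
    omega
  have h4 : ∑ b ∈ Nb, (25 * (C f b).card + 6) ≤ ∑ b ∈ Nb, 12 * f b := by
    apply Finset.sum_le_sum
    intro b hb
    rw [hNb, mem_filter, hB, mem_filter] at hb
    have h5 := card_C f b
    have h6 := three_le hκ f hf hcost b hb.1.2
    have h7 : ¬ (f b = 4 ∧ 2 ≤ (C f b).card) := hb.2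
    generalize (C f b).card = n at h5 h7 ⊢
    generalize f b = x at h5 h6 h7 ⊢
    by_cases hx : x ≤ 13
    · interval_cases x <;> omega
    · omega
  rw [Finset.sum_add_distrib, Finset.sum_const, smul_eq_mul, ← Finset.mul_sum, ← Finset.mul_sum] at h3 h4
  rw [hsumC] at h1
  rw [hsum]
  omega

/-- The difference of `i_h` and `i_bn` is unbounded: for every `K` there is a finite connected graph
`G` of order at least two with `i_bn(G) + K ≤ i_h(G)`. -/
theorem result (K : ℕ) : ∃ (V : Type) (_ : Fintype V) (G : SimpleGraph V), G.Connected ∧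
    2 ≤ Fintype.card V ∧ ibn G + K ≤ ih G := by
  refine ⟨W (6 * K + 5) (30 * (K + 1)), inferInstance, G (6 * K + 5) (30 * (K + 1)), conn_G, ?_, ?_⟩
  · rw [Fintype.card_sum, Fintype.card_fin]
    omega
  · have hκ : 2 ≤ 6 * K + 5 := by omega
    have h1 : ibn (G (6 * K + 5) (30 * (K + 1))) ≤ 24 * (K + 1) := by
      have h2 : ibn (G (6 * K + 5) (30 * (K + 1))) ≤ ∑ v : W (6 * K + 5) (30 * (K + 1)), f₀ v :=
        Nat.sInf_le ⟨f₀, f₀_max hκ, rfl⟩
      have h3 := f₀_sum (κ := 6 * K + 5) (m := 30 * (K + 1))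
      omega
    have h2 : 25 * (K + 1) ≤ ih (G (6 * K + 5) (30 * (K + 1))) := by
      obtain ⟨f, hf⟩ := exists_maximal (G (6 * K + 5) (30 * (K + 1)))
      have hne : {n | ∃ f, IsMaximal (G (6 * K + 5) (30 * (K + 1)))
          (HearingIndependent (G (6 * K + 5) (30 * (K + 1)))) f ∧ ∑ v, f v = n}.Nonempty :=
        ⟨_, f, hf, rfl⟩
      obtain ⟨g, hg1, hg2⟩ := Nat.sInf_mem hne
      have e : ih (G (6 * K + 5) (30 * (K + 1))) = ∑ v, g v := hg2.symm
      rw [e]
      by_cases hc : ∑ v, g v < 30 * (K + 1)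
      · have := lower hκ g hg1 hc
        omega
      · omega
    omega

end Pool.Agent.Results.MP_511249_co.CaterpillarLegs
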